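import Pool.Agent.Helper25.LS.Defs2

/-!
# LS-L2: Euclidean distances of subspaces of a Hilbert sum
-/

set_option autoImplicit false

open Filter Topology Module
open scoped ENNReal NNReal

noncomputable section

namespace Pool.Agent.Helper2.LS

open Pool.Agent.Helper25.LS

theorem l2 (h1 : S_EQ) : S_L2 := by
  intro B _ _ n C hC hD E hE hn
  -- the coordinate maps
  let ev : ∀ k, E →ₗ[ℂ] B k := fun k => (lp.evalₗ (𝕜 := ℂ) B 2 k).comp E.subtype
  have hev : ∀ k (y : E), ev k y = (y : lp B 2) k := fun k y => rfl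
  have hr : ∀ k, Euc (B k) (LinearMap.range (ev k)) C := by
    intro k
    refine hD k _ inferInstance ?_
    exact (LinearMap.finrank_range_le (ev k)).trans hn
  choose m u hu using hr
  -- the rescaled coordinates
  let c : ℕ → ℝ := fun k =>
    ‖((u k).symm : EuclideanSpace ℂ (Fin (m k)) →L[ℂ] LinearMap.range (ev k))‖
  have hc : ∀ k, 0 ≤ c k := fun k => ContinuousLinearMap.opNorm_nonneg _
  let w : ∀ k, E →ₗ[ℂ] EuclideanSpace ℂ (Fin (m k)) := fun k =>
    ((c k : ℝ) : ℂ) •
      ((u k : LinearMap.range (ev k) →L[ℂ] EuclideanSpace ℂ (Fin (m k))).toLinearMap.comp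
        (ev k).rangeRestrict)
  have hwn : ∀ k (y : E), ‖w k y‖ = c k * ‖u k ((ev k).rangeRestrict y)‖ := by
    intro k y
    have : w k y = ((c k : ℝ) : ℂ) • (u k ((ev k).rangeRestrict y)) := rfl
    rw [this, norm_smul, Complex.norm_real, Real.norm_of_nonneg (hc k)]
  have h3 : ∀ k (y : E), ‖(ev k).rangeRestrict y‖ = ‖(y : lp B 2) k‖ := fun k y => rfl
  have hw1 : ∀ k (y : E), ‖(y : lp B 2) k‖ ≤ ‖w k y‖ := by
    intro k y
    have h := ((u k).symm : EuclideanSpace ℂ (Fin (m k)) →L[ℂ] LinearMap.range (ev k)).le_opNorm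
      (u k ((ev k).rangeRestrict y))
    have h2 : ((u k).symm : EuclideanSpace ℂ (Fin (m k)) →L[ℂ] LinearMap.range (ev k))
      (u k ((ev k).rangeRestrict y)) = (ev k).rangeRestrict y := by simp
    rw [h2, h3] at h
    rw [hwn]
    exact h
  have hw2 : ∀ k (y : E), ‖w k y‖ ≤ C * ‖(y : lp B 2) k‖ := by
    intro k y
    have h := (u k : LinearMap.range (ev k) →L[ℂ] EuclideanSpace ℂ (Fin (m k))).le_opNorm
      ((ev k).rangeRestrict y)
    rw [h3] at h
    rw [hwn]
    calc _ ≤ c k *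
        (‖(u k : LinearMap.range (ev k) →L[ℂ] EuclideanSpace ℂ (Fin (m k)))‖ *
          ‖(y : lp B 2) k‖) := mul_le_mul_of_nonneg_left h (hc k)
      _ = (‖(u k : LinearMap.range (ev k) →L[ℂ] EuclideanSpace ℂ (Fin (m k)))‖ *
          c k) * ‖(y : lp B 2) k‖ := by ring
      _ ≤ C * ‖(y : lp B 2) k‖ := mul_le_mul_of_nonneg_right (hu k) (norm_nonneg _)
  have hCn : ∀ k (y : E), ‖((C : ℂ) • (y : lp B 2) : lp B 2) k‖ = C * ‖(y : lp B 2) k‖ := by
    intro k y
    rw [lp.coeFn_smul, Pi.smul_apply, norm_smul, Complex.norm_real, Real.norm_of_nonneg hC]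
  have hmem : ∀ y : E, Memℓp (fun k => w k y) 2 := by
    intro y
    refine Memℓp.mono' (lp.memℓp ((C : ℂ) • (y : lp B 2))) (fun k => ?_)
    rw [hCn]
    exact hw2 k y
  let L : E →ₗ[ℂ] lp (fun k => EuclideanSpace ℂ (Fin (m k))) 2 :=
    { toFun := fun y => ⟨fun k => w k y, hmem y⟩
      map_add' := by
        intro y z
        apply lp.ext
        funext k
        exact map_add (w k) y z
      map_smul' := by
        intro a y
        apply lp.ext
        funext k
        exact map_smul (w k) a y }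
  have hL : ∀ (y : E) k, (L y) k = w k y := fun y k => rfl
  refine h1 (lp B 2) E C (fun y => ‖L y‖) ?_ ?_ ?_ ?_ hC
  · intro y
    constructor
    · exact lp.norm_mono (by norm_num) (fun k => hw1 k y)
    · have h6 : ‖L y‖ ≤ ‖(C : ℂ) • (y : lp B 2)‖ := by
        refine lp.norm_mono (by norm_num) (fun k => ?_)
        rw [hCn]
        exact hw2 k y
      rw [norm_smul, Complex.norm_real, Real.norm_of_nonneg hC] at h6
      exact h6
  · intro y z
    show ‖L (y + z)‖ ≤ _
    rw [map_add]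
    exact norm_add_le _ _
  · intro a y
    show ‖L (a • y)‖ = _
    rw [map_smul, norm_smul]
  · intro y z
    show ‖L (y + z)‖ * ‖L (y + z)‖ + ‖L (y - z)‖ * ‖L (y - z)‖ =
      2 * (‖L y‖ * ‖L y‖ + ‖L z‖ * ‖L z‖)
    rw [map_add, map_sub]
    have := parallelogram_law_with_norm ℂ (L y) (L z)
    simpa only [sq] using this

end Pool.Agent.Helper2.LS
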